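import Pool.Agent.Work.MP_db9399_lin.Interface

/-!
# BF: the Beck–Fiala theorem, iterated
-/

set_option autoImplicit false

namespace MP_db9399_co.Lin

universe u v

namespace BFproof

open Finset

/-- floating elements -/
noncomputable def fl {Ω : Type u} [Fintype Ω] (x : Ω → ℝ) : Finset Ω :=
  univ.filter (fun j => x j ≠ 1 ∧ x j ≠ -1)

lemma big_lt {Ω : Type u} {ι : Type v} [Fintype Ω] [DecidableEq Ω] [Fintype ι] [DecidableEq ι]
    (A : ι → Finset Ω) (t : ℕ) (hA : ∀ x, (univ.filter (fun i => x ∈ A i)).card ≤ t)
    (F : Finset Ω) (hF : F.Nonempty) :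
    (univ.filter (fun i => t < (A i ∩ F).card)).card < F.card := by
  set B := univ.filter (fun i => t < (A i ∩ F).card) with hB
  have h1 : (t + 1) * B.card ≤ ∑ i ∈ B, (A i ∩ F).card := by
    rw [mul_comm, ← smul_eq_mul]
    apply card_nsmul_le_sum
    intro i hi
    exact (mem_filter.1 hi).2
  have h2 : ∑ i ∈ B, (A i ∩ F).card ≤ ∑ i, (A i ∩ F).card :=
    sum_le_sum_of_subset (subset_univ _)
  have h3 : ∑ i, (A i ∩ F).card = ∑ j ∈ F, (univ.filter (fun i => j ∈ A i)).card := by
    have e1 : ∀ i, (A i ∩ F).card = ∑ j ∈ F, if j ∈ A i then 1 else 0 := by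
      intro i
      rw [← card_filter]
      congr 1
      ext j
      simp only [mem_inter, mem_filter]
      tauto
    have e2 : ∀ j, (univ.filter (fun i => j ∈ A i)).card = ∑ i, if j ∈ A i then 1 else 0 := by
      intro j
      rw [← card_filter]
    simp only [e1, e2]
    exact sum_comm
  have h4 : ∑ j ∈ F, (univ.filter (fun i => j ∈ A i)).card ≤ F.card * t := by
    rw [← smul_eq_mul]
    exact sum_le_card_nsmul _ _ _ fun j _ => hA j
  have h5 : 0 < F.card := card_pos.2 hF
  have h6 : (t + 1) * B.card ≤ F.card * t := by omega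
  by_contra hcon
  push Not at hcon
  have h7 : (t + 1) * F.card ≤ (t + 1) * B.card := Nat.mul_le_mul_left _ hcon
  nlinarith

lemma exists_dir {Ω : Type u} {ι : Type v} [Fintype Ω] [DecidableEq Ω] [Fintype ι]
    [DecidableEq ι] (A : ι → Finset Ω) (F : Finset Ω) (B : Finset ι) (h : B.card < F.card) :
    ∃ y : Ω → ℝ, (∃ j, y j ≠ 0) ∧ (∀ j, j ∉ F → y j = 0) ∧ ∀ i ∈ B, ∑ j ∈ A i, y j = 0 := by
  let T : (F → ℝ) →ₗ[ℝ] (B → ℝ) := LinearMap.pi fun i =>
    ∑ j : F, if (j : Ω) ∈ A i then LinearMap.proj j else 0
  have hT : LinearMap.ker T ≠ ⊥ := by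
    apply LinearMap.ker_ne_bot_of_finrank_lt
    simp only [Module.finrank_pi, Fintype.card_coe]
    exact h
  obtain ⟨y, hy, hy0⟩ := Submodule.exists_mem_ne_zero_of_ne_bot hT
  have hyT : T y = 0 := hy
  refine ⟨fun j => if hj : j ∈ F then y ⟨j, hj⟩ else 0, ?_, ?_, ?_⟩
  · have : ∃ j, y j ≠ 0 := by
      by_contra hcon
      push Not at hcon
      exact hy0 (funext hcon)
    obtain ⟨j, hj⟩ := this
    refine ⟨j, ?_⟩
    simp only [coe_mem, dif_pos, Subtype.coe_eta]
    exact hj
  · intro j hj
    simp [hj]
  · intro i hi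
    have h1 := congrFun hyT ⟨i, hi⟩
    have h2 : T y ⟨i, hi⟩ = ∑ j : F, if (j : Ω) ∈ A i then y j else 0 := by
      simp only [T, LinearMap.pi_apply, LinearMap.sum_apply]
      refine sum_congr rfl fun j _ => ?_
      split_ifs <;> simp
    rw [h2] at h1
    have h3 : ∑ j ∈ A i, (if hj : j ∈ F then y ⟨j, hj⟩ else 0)
        = ∑ j : F, if (j : Ω) ∈ A i then y j else 0 := by
      rw [← sum_filter_add_sum_filter_not (A i) (fun j => j ∈ F)]
      have h4 : ∑ j ∈ (A i).filter (fun j => j ∉ F), (if hj : j ∈ F then y ⟨j, hj⟩ else 0) = 0 := by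
        apply sum_eq_zero
        intro j hj
        rw [dif_neg (mem_filter.1 hj).2]
      rw [h4, add_zero, ← sum_filter]
      symm
      refine sum_bij (fun (j : F) _ => (j : Ω)) ?_ ?_ ?_ ?_
      · intro j hj
        exact mem_filter.2 ⟨(mem_filter.1 hj).2, j.2⟩
      · intro a _ b _ hab
        exact Subtype.ext hab
      · intro b hb
        rw [mem_filter] at hb
        exact ⟨⟨b, hb.2⟩, mem_filter.2 ⟨mem_univ _, hb.1⟩, rfl⟩
      · intro j _
        simp
    rw [h3]
    exact h1

/-- The Beck–Fiala rounding. -/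
lemma rounding {Ω : Type u} {ι : Type v} [Fintype Ω] [DecidableEq Ω] [Fintype ι]
    [DecidableEq ι] (A : ι → Finset Ω) (t : ℕ)
    (hA : ∀ x, (univ.filter (fun i => x ∈ A i)).card ≤ t) :
    ∀ (n : ℕ) (x : Ω → ℝ), (fl x).card = n → (∀ j, |x j| ≤ 1) →
      ∃ z : Ω → ℝ, (∀ j, z j = 1 ∨ z j = -1) ∧ (∀ j, j ∉ fl x → z j = x j) ∧
        ∀ i, |∑ j ∈ A i, (z j - x j)| ≤ 2 * t := by
  intro n
  induction n using Nat.strong_induction_on with
  | _ n ih =>
    intro x hn hx
    rcases (fl x).eq_empty_or_nonempty with hF | hF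
    · refine ⟨x, ?_, fun j _ => rfl, ?_⟩
      · intro j
        by_contra hcon
        push Not at hcon
        have : j ∈ fl x := mem_filter.2 ⟨mem_univ _, hcon⟩
        rw [hF] at this
        simp at this
      · intro i
        simp
    · set B := univ.filter (fun i => t < (A i ∩ fl x).card) with hB
      obtain ⟨y, ⟨j1, hj1⟩, hyF, hyB⟩ := exists_dir A (fl x) B (big_lt A t hA (fl x) hF)
      -- step lengths
      set lam : Ω → ℝ := fun j => if 0 < y j then (1 - x j) / y j else (-1 - x j) / y j with hlam
      set S := univ.filter (fun j => y j ≠ 0) with hS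
      have hSne : S.Nonempty := ⟨j1, mem_filter.2 ⟨mem_univ _, hj1⟩⟩
      obtain ⟨j0, hj0, hmin⟩ := exists_min_image S lam hSne
      have hyj0 : y j0 ≠ 0 := (mem_filter.1 hj0).2
      have hstrict : ∀ j, y j ≠ 0 → -1 < x j ∧ x j < 1 := by
        intro j hj
        have hjF : j ∈ fl x := by
          by_contra h
          exact hj (hyF j h)
        have h1 := (mem_filter.1 hjF).2
        have h2 := abs_le.1 (hx j)
        exact ⟨lt_of_le_of_ne h2.1 (Ne.symm h1.2), lt_of_le_of_ne h2.2 h1.1⟩
      have hlampos : 0 < lam j0 := by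
        have h1 := hstrict j0 hyj0
        rw [hlam]
        simp only
        split_ifs with h
        · exact div_pos (by linarith) h
        · have : y j0 < 0 := lt_of_le_of_ne (not_lt.1 h) hyj0
          exact div_pos_of_neg_of_neg (by linarith) this
      set x' : Ω → ℝ := fun j => x j + lam j0 * y j with hx'
      have hx'b : ∀ j, |x' j| ≤ 1 := by
        intro j
        rw [hx']
        simp only
        by_cases hj : y j = 0
        · rw [hj, mul_zero, add_zero]; exact hx j
        · have h1 := hstrict j hj
          have h2 : lam j0 ≤ lam j := hmin j (mem_filter.2 ⟨mem_univ _, hj⟩)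
          rw [hlam] at h2
          simp only at h2
          rw [abs_le]
          rcases lt_or_gt_of_ne hj with h | h
          · rw [if_neg (not_lt.2 h.le)] at h2
            have h3 : lam j0 * y j ≥ (-1 - x j) / y j * y j := by
              exact mul_le_mul_of_nonpos_right h2 h.le
            rw [div_mul_cancel₀ _ hj] at h3
            have h4 : lam j0 * y j < 0 := mul_neg_of_pos_of_neg hlampos h
            constructor <;> linarith
          · rw [if_pos h] at h2
            have h3 : lam j0 * y j ≤ (1 - x j) / y j * y j :=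
              mul_le_mul_of_nonneg_right h2 h.le
            rw [div_mul_cancel₀ _ hj] at h3
            have h4 : 0 < lam j0 * y j := mul_pos hlampos h
            constructor <;> linarith
      have hx'j0 : x' j0 = 1 ∨ x' j0 = -1 := by
        rw [hx']
        simp only
        rcases lt_or_gt_of_ne hyj0 with h | h
        · right
          have : lam j0 = (-1 - x j0) / y j0 := by
            rw [hlam]; simp only; rw [if_neg (not_lt.2 h.le)]
          rw [this, div_mul_cancel₀ _ hyj0]; ring
        · left
          have : lam j0 = (1 - x j0) / y j0 := by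
            rw [hlam]; simp only; rw [if_pos h]
          rw [this, div_mul_cancel₀ _ hyj0]; ring
      have hsame : ∀ j, j ∉ fl x → x' j = x j := by
        intro j hj
        rw [hx']
        simp only
        rw [hyF j hj, mul_zero, add_zero]
      have hsub : fl x' ⊂ fl x := by
        refine ⟨fun j hj => ?_, fun h => ?_⟩
        · by_contra hcon
          have h1 := (mem_filter.1 hj).2
          rw [hsame j hcon] at h1
          exact hcon (mem_filter.2 ⟨mem_univ _, h1⟩)
        · have hj0F : j0 ∈ fl x := by
            by_contra hcon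
            exact hyj0 (hyF j0 hcon)
          have h1 := (mem_filter.1 (h hj0F)).2
          rcases hx'j0 with h2 | h2
          · exact h1.1 h2
          · exact h1.2 h2
      obtain ⟨z, hz1, hz2, hz3⟩ := ih (fl x').card (by rw [← hn]; exact card_lt_card hsub) x' rfl
        hx'b
      have hzx : ∀ j, j ∉ fl x → z j = x j := fun j hj => by
        rw [hz2 j (fun h => hj (hsub.1 h)), hsame j hj]
      refine ⟨z, hz1, hzx, fun i => ?_⟩
      by_cases hi : i ∈ B
      · have h1 : ∑ j ∈ A i, (z j - x j) = ∑ j ∈ A i, (z j - x' j) + lam j0 * ∑ j ∈ A i, y j := by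
          rw [mul_sum, ← sum_add_distrib]
          refine sum_congr rfl fun j _ => ?_
          rw [hx']; ring
        rw [h1, hyB i hi, mul_zero, add_zero]
        exact hz3 i
      · have h1 : (A i ∩ fl x).card ≤ t := by
          by_contra hcon
          exact hi (mem_filter.2 ⟨mem_univ _, not_le.1 hcon⟩)
        calc |∑ j ∈ A i, (z j - x j)| ≤ ∑ j ∈ A i, |z j - x j| := abs_sum_le_sum_abs _ _
          _ = ∑ j ∈ A i ∩ fl x, |z j - x j| := by
              symm
              apply sum_subset inter_subset_left
              intro j hj hj'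
              have : j ∉ fl x := fun h => hj' (mem_inter.2 ⟨hj, h⟩)
              rw [hzx j this, sub_self, abs_zero]
          _ ≤ ∑ _j ∈ A i ∩ fl x, (2 : ℝ) := by
              refine sum_le_sum fun j _ => ?_
              have h2 := abs_le.1 (hx j)
              rw [abs_le]
              rcases hz1 j with h | h <;> rw [h] <;> constructor <;> linarith
          _ = ((A i ∩ fl x).card : ℝ) * 2 := by rw [sum_const, nsmul_eq_mul]
          _ ≤ 2 * t := by
              have : ((A i ∩ fl x).card : ℝ) ≤ t := by exact_mod_cast h1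
              linarith

/-- Halving. -/
lemma halving {Ω : Type u} {ι : Type v} [Fintype Ω] [DecidableEq Ω] [Fintype ι]
    [DecidableEq ι] (A : ι → Finset Ω) (t : ℕ)
    (hA : ∀ x, (univ.filter (fun i => x ∈ A i)).card ≤ t) :
    ∃ h : Ω → Bool, ∀ i b, 2 * ((A i).filter (fun x => h x = b)).card ≤ (A i).card + 2 * t := by
  obtain ⟨z, hz1, _, hz3⟩ := rounding A t hA _ (fun _ => 0) rfl (by simp)
  refine ⟨fun j => decide (z j = 1), fun i b => ?_⟩
  have h1 : ∑ j ∈ A i, (z j - 0) = (((A i).filter (fun x => decide (z x = 1) = true)).card : ℝ)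
      - (((A i).filter (fun x => decide (z x = 1) = false)).card : ℝ) := by
    rw [card_filter, card_filter]
    push_cast
    rw [← sum_sub_distrib]
    refine sum_congr rfl fun j _ => ?_
    rcases hz1 j with h | h
    · simp [h]
    · have : z j ≠ 1 := by rw [h]; norm_num
      simp [h]
      norm_num
  have h2 : (((A i).filter (fun x => decide (z x = 1) = true)).card)
      + (((A i).filter (fun x => decide (z x = 1) = false)).card) = (A i).card := by
    rw [← card_filter_add_card_filter_not (s := A i) (fun x => decide (z x = 1) = true)]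
    congr 2
    ext x
    simp
  have h3 := abs_le.1 (hz3 i)
  rw [h1] at h3
  have h4 : ((((A i).filter (fun x => decide (z x = 1) = true)).card) : ℝ)
      + (((A i).filter (fun x => decide (z x = 1) = false)).card) = ((A i).card : ℝ) := by
    exact_mod_cast h2
  have h5 : (2 : ℝ) * (((A i).filter (fun x => decide (z x = 1) = b)).card : ℝ)
      ≤ (A i).card + 2 * t := by
    cases b with
    | true => linarith [h3.2]
    | false => linarith [h3.1]
  exact_mod_cast h5

/-- Iterated halving. -/
lemma iter {Ω : Type u} {ι : Type v} [Fintype Ω] [DecidableEq Ω] [Fintype ι]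
    [DecidableEq ι] (A : ι → Finset Ω) (t a : ℕ)
    (hA : ∀ x, (univ.filter (fun i => x ∈ A i)).card ≤ t) :
    ∃ f : Ω → Fin a → Bool, ∀ i b,
      2 ^ a * ((A i).filter (fun x => f x = b)).card ≤ (A i).card + 2 ^ (a + 1) * t := by
  induction a with
  | zero =>
    refine ⟨fun _ _ => true, fun i b => ?_⟩
    rw [pow_zero, one_mul]
    exact le_trans (card_filter_le _ _) (Nat.le_add_right _ _)
  | succ a ih =>
    obtain ⟨f, hf⟩ := ih
    obtain ⟨h, hh⟩ := halving (fun p : ι × (Fin a → Bool) => (A p.1).filter (fun x => f x = p.2)) t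
      (by
        intro x
        refine le_trans (card_le_card_of_injOn (fun p => p.1) ?_ ?_) (hA x)
        · intro p hp
          have h1 := (mem_filter.1 hp).2
          exact mem_filter.2 ⟨mem_univ _, (mem_filter.1 h1).1⟩
        · intro p hp q hq hpq
          have h1 := (mem_filter.1 (mem_filter.1 (mem_coe.1 hp)).2).2
          have h2 := (mem_filter.1 (mem_filter.1 (mem_coe.1 hq)).2).2
          exact Prod.ext hpq (h1.symm.trans h2))
    refine ⟨fun x => Fin.snoc (α := fun _ => Bool) (f x) (h x), fun i b => ?_⟩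
    have h1 : (A i).filter (fun x => Fin.snoc (α := fun _ => Bool) (f x) (h x) = b)
        = ((A i).filter (fun x => f x = Fin.init b)).filter (fun x => h x = b (Fin.last a)) := by
      ext x
      simp only [mem_filter, and_assoc, and_congr_right_iff]
      intro _
      constructor
      · intro h2
        rw [← h2]
        simp
      · rintro ⟨h2, h3⟩
        rw [h2, h3, Fin.snoc_init_self]
    rw [h1]
    have h2 := hh (i, Fin.init b) (b (Fin.last a))
    have h3 := hf i (Fin.init b)
    simp only at h2
    have h4 : 2 ^ a * (2 * (((A i).filter (fun x => f x = Fin.init b)).filter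
        (fun x => h x = b (Fin.last a))).card)
        ≤ 2 ^ a * (((A i).filter (fun x => f x = Fin.init b)).card + 2 * t) :=
      Nat.mul_le_mul_left _ h2
    have e1 : 2 ^ (a + 1) = 2 ^ a * 2 := pow_succ 2 a
    have e2 : 2 ^ (a + 1 + 1) = 2 ^ a * 4 := by rw [pow_succ, pow_succ]; ring
    rw [e1] at h3 ⊢
    rw [e2]
    nlinarith

end BFproof

theorem stmt_BF : Stmt_BF.{u} := by
  intro Ω ι _ _ _ _ A t a hA
  exact BFproof.iter A t a hA

end MP_db9399_co.Lin
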