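import Pool.Agent.Work.MP_db9399_lin.Interface
import Pool.Agent.Work.MP_db9399_lin_helper80.BF

/-!
# SPL: splitting every label into four colours; CUT
-/

set_option autoImplicit false

namespace MP_db9399_co.Lin

universe u

namespace SPLproof

open Finset

variable {V : Type u} [Fintype V] [DecidableEq V]

/-- The set of the pair `(w, i)`. -/
def AA (E N0 : Finset (V × V)) {ℓ : ℕ} (U : Finset V) (lv : V → Fin ℓ) (le : V × V → Fin ℓ)
    (p : V × Fin ℓ) : Finset (V ⊕ (V × V)) :=
  (univ.filter (fun x : V => (p.1, x) ∈ E ∧ x ∉ U ∧ lv x = p.2)).image Sum.inl ∪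
    (univ.filter (fun g : V × V => g ∈ N0 ∧ le g = p.2 ∧ ((p.1, g.1) ∈ E ∨ (p.1, g.2) ∈ E))).image
      Sum.inr

lemma mem_inl (E N0 : Finset (V × V)) {ℓ : ℕ} (U : Finset V) (lv : V → Fin ℓ) (le : V × V → Fin ℓ)
    (p : V × Fin ℓ) (x : V) :
    Sum.inl x ∈ AA E N0 U lv le p ↔ (p.1, x) ∈ E ∧ x ∉ U ∧ lv x = p.2 := by
  simp [AA]

lemma mem_inr (E N0 : Finset (V × V)) {ℓ : ℕ} (U : Finset V) (lv : V → Fin ℓ) (le : V × V → Fin ℓ)
    (p : V × Fin ℓ) (g : V × V) :
    Sum.inr g ∈ AA E N0 U lv le p ↔ g ∈ N0 ∧ le g = p.2 ∧ ((p.1, g.1) ∈ E ∨ (p.1, g.2) ∈ E) := by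
  simp [AA]

lemma card_back (E : Finset (V × V)) (s : ℕ) (hb : ∀ x, (bwd E x).card ≤ s) (x : V) :
    (univ.filter (fun w : V => (w, x) ∈ E)).card ≤ s := by
  refine le_trans (card_le_card_of_injOn (fun w => (w, x)) ?_ ?_) (hb x)
  · intro w hw
    exact mem_filter.2 ⟨(mem_filter.1 hw).2, rfl⟩
  · intro a _ b _ hab
    exact (Prod.ext_iff.1 hab).1

lemma degree (E N0 : Finset (V × V)) {ℓ : ℕ} (s : ℕ) (U : Finset V) (lv : V → Fin ℓ)
    (le : V × V → Fin ℓ) (hb : ∀ x, (bwd E x).card ≤ s) (ω : V ⊕ (V × V)) :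
    (univ.filter (fun p => ω ∈ AA E N0 U lv le p)).card ≤ 2 * s := by
  cases ω with
  | inl x =>
    refine le_trans (card_le_card_of_injOn (t := univ.filter (fun w : V => (w, x) ∈ E))
      (fun p => p.1) ?_ ?_) (le_trans (card_back E s hb x) (by omega))
    · intro p hp
      have h1 := (mem_inl E N0 U lv le p x).1 (mem_filter.1 hp).2
      exact mem_filter.2 ⟨mem_univ _, h1.1⟩
    · intro p hp q hq hpq
      have h1 := (mem_inl E N0 U lv le p x).1 (mem_filter.1 (mem_coe.1 hp)).2
      have h2 := (mem_inl E N0 U lv le q x).1 (mem_filter.1 (mem_coe.1 hq)).2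
      exact Prod.ext hpq (h1.2.2.symm.trans h2.2.2)
  | inr g =>
    refine le_trans (card_le_card_of_injOn (t := univ.filter (fun w : V => (w, g.1) ∈ E)
      ∪ univ.filter (fun w : V => (w, g.2) ∈ E)) (fun p => p.1) ?_ ?_)
      (le_trans (card_union_le _ _) ?_)
    · intro p hp
      have h1 := (mem_inr E N0 U lv le p g).1 (mem_filter.1 hp).2
      rcases h1.2.2 with h | h
      · exact mem_union_left _ (mem_filter.2 ⟨mem_univ _, h⟩)
      · exact mem_union_right _ (mem_filter.2 ⟨mem_univ _, h⟩)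
    · intro p hp q hq hpq
      have h1 := (mem_inr E N0 U lv le p g).1 (mem_filter.1 (mem_coe.1 hp)).2
      have h2 := (mem_inr E N0 U lv le q g).1 (mem_filter.1 (mem_coe.1 hq)).2
      exact Prod.ext hpq (h1.2.1.symm.trans h2.2.1)
    · have h1 := card_back E s hb g.1
      have h2 := card_back E s hb g.2
      omega

lemma card_AA (E N0 : Finset (V × V)) {ℓ : ℕ} (U : Finset V) (lv : V → Fin ℓ)
    (le : V × V → Fin ℓ)
    (hN1 : ∀ e ∈ N0, ∀ f ∈ N0, e ≠ f → Share e f → le e ≠ le f)
    (hN2 : ∀ e ∈ N0, (e.1 ∉ U → le e ≠ lv e.1) ∧ (e.2 ∉ U → le e ≠ lv e.2))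
    (p : V × Fin ℓ) : (AA E N0 U lv le p).card ≤ (fwd E p.1).card := by
  set φ : V ⊕ (V × V) → V × V := fun ω => match ω with
    | Sum.inl x => (p.1, x)
    | Sum.inr g => if (p.1, g.1) ∈ E then (p.1, g.1) else (p.1, g.2) with hφ
  have hend : ∀ g : V × V, (φ (Sum.inr g)).2 = g.1 ∨ (φ (Sum.inr g)).2 = g.2 := by
    intro g
    simp only [hφ]
    split_ifs
    · exact Or.inl rfl
    · exact Or.inr rfl
  apply card_le_card_of_injOn φ
  · intro ω hω
    cases ω with
    | inl x =>
      have h1 := (mem_inl E N0 U lv le p x).1 hω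
      exact mem_filter.2 ⟨h1.1, rfl⟩
    | inr g =>
      have h1 := (mem_inr E N0 U lv le p g).1 hω
      simp only [hφ]
      split_ifs with h
      · exact mem_filter.2 ⟨h, rfl⟩
      · rcases h1.2.2 with h2 | h2
        · exact absurd h2 h
        · exact mem_filter.2 ⟨h2, rfl⟩
  · have mixed : ∀ (x : V) (g : V × V), Sum.inl x ∈ AA E N0 U lv le p →
        Sum.inr g ∈ AA E N0 U lv le p → φ (Sum.inl x) = φ (Sum.inr g) → False := by
      intro x g hx hg h
      have h1 := (mem_inl E N0 U lv le p x).1 hx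
      have h2 := (mem_inr E N0 U lv le p g).1 hg
      have h3 : (φ (Sum.inl x)).2 = x := rfl
      have h4 := hN2 g h2.1
      rcases hend g with h5 | h5
      · have : x = g.1 := by rw [← h5, ← h, h3]
        subst this
        exact h4.1 h1.2.1 (h2.2.1.trans h1.2.2.symm)
      · have : x = g.2 := by rw [← h5, ← h, h3]
        subst this
        exact h4.2 h1.2.1 (h2.2.1.trans h1.2.2.symm)
    intro ω hω ω' hω' h
    rw [mem_coe] at hω hω'
    cases ω with
    | inl x =>
      cases ω' with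
      | inl y =>
        have : x = y := (Prod.ext_iff.1 h).2
        rw [this]
      | inr g => exact (mixed x g hω hω' h).elim
    | inr g =>
      cases ω' with
      | inl y => exact (mixed y g hω' hω h.symm).elim
      | inr g' =>
        have h1 := (mem_inr E N0 U lv le p g).1 hω
        have h2 := (mem_inr E N0 U lv le p g').1 hω'
        by_contra hne
        have hne' : g ≠ g' := fun h3 => hne (by rw [h3])
        apply hN1 g h1.1 g' h2.1 hne' _ (h1.2.1.trans h2.2.1.symm)
        unfold Share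
        have h5 : (φ (Sum.inr g)).2 = (φ (Sum.inr g')).2 := by rw [h]
        rcases hend g with h3 | h3 <;> rcases hend g' with h4 | h4
        · left; rw [← h3, h5, h4]
        · right; left; rw [← h3, h5, h4]
        · right; right; left; rw [← h3, h5, h4]
        · right; right; right; rw [← h3, h5, h4]

end SPLproof

open SPLproof Finset in
theorem stmt_SPL : Stmt_SPL.{u} := by
  intro V _ _ E N0 s ℓ U lv le _ _ hb hN1 hN2
  obtain ⟨f, hf⟩ := BFproof.iter (AA E N0 U lv le) (2 * s) 2 (degree E N0 s U lv le hb)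
  have hcard : Fintype.card (Fin 2 → Bool) = 4 := by simp
  let enc : (Fin 2 → Bool) ≃ Fin 4 := Fintype.equivFinOfCardEq hcard
  refine ⟨fun x => enc (f (Sum.inl x)), fun g => enc (f (Sum.inr g)), fun w i j => ?_⟩
  set cell := (AA E N0 U lv le (w, i)).filter (fun ω => f ω = enc.symm j) with hcell
  have h1 := hf (w, i) (enc.symm j)
  have h2 := card_AA E N0 U lv le hN1 hN2 (w, i)
  have h3 : ((fwd E w).filter (fun e => (e.2 ∉ U ∧ lv e.2 = i ∧ enc (f (Sum.inl e.2)) = j) ∨
      ∃ g ∈ N0, le g = i ∧ enc (f (Sum.inr g)) = j ∧ (g.1 = e.2 ∨ g.2 = e.2))).card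
      ≤ cell.card * 2 := by
    refine le_trans (card_le_card (t := cell.biUnion (fun ω => match ω with
      | Sum.inl x => {(w, x)}
      | Sum.inr g => {(w, g.1), (w, g.2)})) ?_) (card_biUnion_le_card_mul _ _ _ ?_)
    · intro e he
      rw [mem_filter] at he
      obtain ⟨he1, he2⟩ := he
      have he3 := mem_filter.1 he1
      have he4 : e = (w, e.2) := Prod.ext he3.2 rfl
      have he5 : (w, e.2) ∈ E := by rw [← he4]; exact he3.1
      rw [mem_biUnion]
      rcases he2 with h | ⟨g, hg, h4, h5, h6⟩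
      · refine ⟨Sum.inl e.2, ?_, ?_⟩
        · rw [hcell, mem_filter, mem_inl]
          refine ⟨⟨he5, h.1, h.2.1⟩, ?_⟩
          rw [← h.2.2, Equiv.symm_apply_apply]
        · show e ∈ ({(w, e.2)} : Finset (V × V))
          rw [mem_singleton]; exact he4
      · refine ⟨Sum.inr g, ?_, ?_⟩
        · rw [hcell, mem_filter, mem_inr]
          refine ⟨⟨hg, h4, ?_⟩, ?_⟩
          · rcases h6 with h7 | h7
            · left; rw [h7]; exact he5
            · right; rw [h7]; exact he5
          · rw [← h5, Equiv.symm_apply_apply]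
        · show e ∈ ({(w, g.1), (w, g.2)} : Finset (V × V))
          rw [mem_insert, mem_singleton]
          rcases h6 with h7 | h7
          · left; rw [h7]; exact he4
          · right; rw [h7]; exact he4
    · intro ω _
      cases ω with
      | inl x => simp
      | inr g => exact card_le_two
  have h2' : (AA E N0 U lv le (w, i)).card ≤ (fwd E w).card := h2
  have h4 : 2 ^ 2 * cell.card ≤ (AA E N0 U lv le (w, i)).card + 2 ^ (2 + 1) * (2 * s) := h1
  norm_num at h4
  refine le_trans (Nat.mul_le_mul_left 2 h3) ?_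
  omega

open Finset in
theorem stmt_CUT_direct : Stmt_CUT.{u} := by
  intro V _ _ E s m hb
  obtain ⟨f, hf⟩ := BFproof.iter (fun w : V => (fwd E w).image Prod.snd) s m (by
    intro x
    refine le_trans (card_le_card ?_) (SPLproof.card_back E s hb x)
    intro w hw
    have h1 := (mem_filter.1 hw).2
    rw [mem_image] at h1
    obtain ⟨e, he, hex⟩ := h1
    have he' := mem_filter.1 he
    refine mem_filter.2 ⟨mem_univ _, ?_⟩
    rw [← hex, ← he'.2]
    exact he'.1)
  refine ⟨f, fun w b => ?_⟩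
  have hinj : Set.InjOn Prod.snd ((fwd E w : Finset (V × V)) : Set (V × V)) := by
    intro a ha c hc hac
    have h1 := (mem_filter.1 (mem_coe.1 ha)).2
    have h2 := (mem_filter.1 (mem_coe.1 hc)).2
    exact Prod.ext (h1.trans h2.symm) hac
  have h1 := hf w b
  rw [card_image_of_injOn hinj] at h1
  have h2 : (((fwd E w).image Prod.snd).filter (fun x => f x = b)).card
      = ((fwd E w).filter (fun e => f e.2 = b)).card := by
    rw [filter_image, card_image_of_injOn]
    exact hinj.mono (by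
      intro x hx
      exact mem_coe.2 (mem_filter.1 (mem_coe.1 hx)).1)
  rw [h2] at h1
  exact h1

end MP_db9399_co.Lin
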